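import Pool.Agent.N975.PG.Par

/-!
# The genus weight and **SYMG**
-/

set_option autoImplicit false

open Finset

namespace Pool.Agent.N975.PG

open Pool.Agent.N972.P17 (Gs)
open Pool.Agent.N975.Sym (ev act act_inv eqv ev_act ev10 ev_neg)
open Pool.Agent.N975.S17 (ev01 fin_eqv sum_eqv ev_neg_neg d_ne OddHom GG GG_pos)

noncomputable section

/-! ### the local symbol -/

/-- the local genus symbol -/
def gp (p : ℕ) (q : ℤ × ℤ × ℤ) : ℤ := if (p : ℤ) ∣ q.1 then jacobiSym q.2.2 p else jacobiSym q.1 p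

theorem gn_eq (A : ℕ) (q : ℤ × ℤ × ℤ) : gn A q = ∏ p ∈ A.primeFactors, gp p q := rfl

theorem jac_zero {p : ℕ} (hp : p.Prime) {a : ℤ} (h : (p : ℤ) ∣ a) : jacobiSym a p = 0 := by
  have : NeZero p := ⟨hp.ne_zero⟩
  rw [jacobiSym.eq_zero_iff_not_coprime]
  intro h1
  have h2 : (p : ℤ) ∣ (Int.gcd a p : ℤ) := Int.dvd_coe_gcd h dvd_rfl
  rw [h1] at h2
  have h3 : p ∣ 1 := by exact_mod_cast h2
  exact hp.one_lt.ne' (Nat.dvd_one.1 h3)

theorem jac_cop {p : ℕ} (hp : p.Prime) {a : ℤ} (h : ¬ (p : ℤ) ∣ a) : Int.gcd a p = 1 := by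
  rw [Int.gcd_comm]
  exact (Int.isCoprime_iff_gcd_eq_one.1 ((Nat.prime_iff_prime_int.1 hp).coprime_iff_not_dvd.2 h))

theorem jac_sq {p : ℕ} (hp : p.Prime) {a : ℤ} (h : ¬ (p : ℤ) ∣ a) : jacobiSym a p ^ 2 = 1 := by
  rcases jacobiSym.eq_one_or_neg_one (jac_cop hp h) with h1 | h1 <;> rw [h1] <;> norm_num

theorem jac_congr {p : ℕ} {a b : ℤ} (h : (p : ℤ) ∣ a - b) : jacobiSym a p = jacobiSym b p := by
  rw [jacobiSym.mod_left, jacobiSym.mod_left b]
  congr 1
  exact Int.emod_eq_emod_iff_emod_sub_eq_zero.2 (Int.emod_eq_zero_of_dvd h)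

/-- a value of the form prime to `p` gives the symbol -/
theorem gp_val {p : ℕ} (hp : p.Prime) (hp2 : p ≠ 2) {q : ℤ × ℤ × ℤ}
    (hd : (p : ℤ) ∣ q.2.1 ^ 2 - 4 * q.1 * q.2.2) (x y : ℤ) (h : ¬ (p : ℤ) ∣ ev q x y) :
    jacobiSym (ev q x y) p = gp p q := by
  have hpp : Prime (p : ℤ) := Nat.prime_iff_prime_int.1 hp
  obtain ⟨t, ht⟩ := hd
  unfold gp
  by_cases h1 : (p : ℤ) ∣ q.1
  · rw [if_pos h1]
    obtain ⟨a, ha⟩ := h1
    have h2 : (p : ℤ) ∣ q.2.1 := by
      apply hpp.dvd_of_dvd_pow (n := 2)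
      exact ⟨t + 4 * a * q.2.2, by rw [ha] at ht; linear_combination ht⟩
    obtain ⟨b, hb⟩ := h2
    have h3 : (p : ℤ) ∣ ev q x y - q.2.2 * y ^ 2 :=
      ⟨a * x ^ 2 + b * x * y, by unfold ev; rw [ha, hb]; ring⟩
    have hy : ¬ (p : ℤ) ∣ y := by
      rintro ⟨z, hz⟩
      apply h
      have : ev q x y = (ev q x y - q.2.2 * y ^ 2) + q.2.2 * y ^ 2 := by ring
      rw [this]
      exact dvd_add h3 ⟨q.2.2 * z * y, by rw [hz]; ring⟩
    rw [jac_congr h3, jacobiSym.mul_left, jacobiSym.pow_left, jac_sq hp hy, mul_one]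
  · rw [if_neg h1]
    have h2 : (p : ℤ) ∣ 4 * (q.1 * ev q x y) - (2 * q.1 * x + q.2.1 * y) ^ 2 :=
      ⟨-(t * y ^ 2), by unfold ev; linear_combination (-(y ^ 2)) * ht⟩
    have hodd : ¬ (p : ℤ) ∣ 2 := by
      intro h3
      have h4 : p ∣ 2 := by exact_mod_cast h3
      exact hp2 ((Nat.prime_dvd_prime_iff_eq hp Nat.prime_two).1 h4)
    have h4 : ¬ (p : ℤ) ∣ (2 * q.1 * x + q.2.1 * y) := by
      intro h5
      have h6 : (p : ℤ) ∣ 4 * (q.1 * ev q x y) := by
        have : 4 * (q.1 * ev q x y) = (4 * (q.1 * ev q x y) - (2 * q.1 * x + q.2.1 * y) ^ 2) +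
          (2 * q.1 * x + q.2.1 * y) * (2 * q.1 * x + q.2.1 * y) := by ring
        rw [this]
        exact dvd_add h2 (dvd_mul_of_dvd_left h5 _)
      rcases hpp.dvd_or_dvd h6 with h7 | h7
      · have h8 : (4 : ℤ) = 2 * 2 := by norm_num
        rw [h8] at h7
        rcases hpp.dvd_or_dvd h7 with h9 | h9 <;> exact hodd h9
      · rcases hpp.dvd_or_dvd h7 with h9 | h9
        · exact h1 h9
        · exact h h9
    have h5 := jac_congr h2
    have e1 : 4 * (q.1 * ev q x y) = 2 ^ 2 * (q.1 * ev q x y) := by ring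
    rw [e1, jacobiSym.mul_left, jacobiSym.pow_left, jac_sq hp hodd, one_mul, jacobiSym.mul_left,
      jacobiSym.pow_left, jac_sq hp h4] at h5
    have h6 := jac_sq hp h1
    have h7 : jacobiSym q.1 p * (jacobiSym q.1 p * jacobiSym (ev q x y) p) =
        jacobiSym q.1 p * 1 := by rw [h5]
    rw [← mul_assoc, ← pow_two, h6, one_mul, mul_one] at h7
    exact h7

/-- the symbol vanishes iff the form vanishes modulo `p` -/
theorem gp_act {p : ℕ} (hp : p.Prime) (hp2 : p ≠ 2) {q : ℤ × ℤ × ℤ}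
    (hd : (p : ℤ) ∣ q.2.1 ^ 2 - 4 * q.1 * q.2.2) {a b c d : ℤ} (h : a * d - b * c = 1) :
    gp p (act a b c d q) = gp p q := by
  have hpp : Prime (p : ℤ) := Nat.prime_iff_prime_int.1 hp
  have e1 : (act a b c d q).1 = ev q a c := by unfold act ev; ring
  have e2 : (act a b c d q).2.2 = ev q b d := by unfold act ev; ring
  have hd' : (act a b c d q).2.1 ^ 2 - 4 * (act a b c d q).1 * (act a b c d q).2.2 =
      q.2.1 ^ 2 - 4 * q.1 * q.2.2 := by
    unfold act
    simp only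
    linear_combination ((q.2.1 ^ 2 - 4 * q.1 * q.2.2) * (a * d - b * c + 1)) * h
  by_cases h1 : (p : ℤ) ∣ ev q a c
  · by_cases h2 : (p : ℤ) ∣ ev q b d
    · -- the form vanishes modulo `p`
      have h3 : (p : ℤ) ∣ (act a b c d q).2.1 := by
        apply hpp.dvd_of_dvd_pow (n := 2)
        obtain ⟨t, ht⟩ := hd
        obtain ⟨u, hu⟩ := h1
        refine ⟨t + 4 * u * (act a b c d q).2.2, ?_⟩
        rw [← e1] at hu
        rw [ht] at hd'
        rw [hu] at hd'
        linear_combination hd'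
      rw [← e1] at h1
      rw [← e2] at h2
      have h4 : q = act d (-b) (-c) a (act a b c d q) := (act_inv h q).symm
      have h5 : (p : ℤ) ∣ q.1 := by
        rw [h4]
        show (p : ℤ) ∣ (act a b c d q).1 * d ^ 2 + (act a b c d q).2.1 * d * (-c) +
          (act a b c d q).2.2 * (-c) ^ 2
        exact dvd_add (dvd_add (dvd_mul_of_dvd_left h1 _)
          (dvd_mul_of_dvd_left (dvd_mul_of_dvd_left h3 _) _)) (dvd_mul_of_dvd_left h2 _)
      have h6 : (p : ℤ) ∣ q.2.2 := by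
        rw [h4]
        show (p : ℤ) ∣ (act a b c d q).1 * (-b) ^ 2 + (act a b c d q).2.1 * (-b) * a +
          (act a b c d q).2.2 * a ^ 2
        exact dvd_add (dvd_add (dvd_mul_of_dvd_left h1 _)
          (dvd_mul_of_dvd_left (dvd_mul_of_dvd_left h3 _) _)) (dvd_mul_of_dvd_left h2 _)
      unfold gp
      rw [if_pos h1, if_pos h5, jac_zero hp h2, jac_zero hp h6]
    · rw [← gp_val hp hp2 hd b d h2]
      unfold gp
      rw [e1, if_pos h1, e2]
  · rw [← gp_val hp hp2 hd a c h1]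
    unfold gp
    rw [e1, if_neg h1]

theorem gp_neg (p : ℕ) (A B C B' : ℤ) : gp p (-A, B', -C) = jacobiSym (-1) p * gp p (A, B, C) := by
  unfold gp
  simp only [dvd_neg]
  split_ifs
  · rw [show -C = -1 * C by ring, jacobiSym.mul_left]
  · rw [show -A = -1 * A by ring, jacobiSym.mul_left]

/-! ### the product -/

theorem two_nmem {A : ℕ} (hA : A % 2 = 1) {p : ℕ} (hp : p ∈ A.primeFactors) : p ≠ 2 := by
  rintro rfl
  have := Nat.dvd_of_mem_primeFactors hp
  omega

theorem gn_act {A : ℕ} (hA : A % 2 = 1) {q : ℤ × ℤ × ℤ}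
    (hd : q.2.1 ^ 2 - 4 * q.1 * q.2.2 = (A : ℤ) ^ 2) {a b c d : ℤ} (h : a * d - b * c = 1) :
    gn A (act a b c d q) = gn A q := by
  rw [gn_eq, gn_eq]
  refine Finset.prod_congr rfl fun p hp => ?_
  refine gp_act (Nat.prime_of_mem_primeFactors hp) (two_nmem hA hp) ?_ h
  rw [hd]
  have : (p : ℤ) ∣ (A : ℤ) := by exact_mod_cast Nat.dvd_of_mem_primeFactors hp
  exact dvd_pow this two_ne_zero

theorem jac_prod (u : ℤ) {A : ℕ} (hA : Squarefree A) :
    ∏ p ∈ A.primeFactors, jacobiSym u p = jacobiSym u A := by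
  have h1 : ∀ S : Finset ℕ, (∀ p ∈ S, p ≠ 0) → ∏ p ∈ S, jacobiSym u p =
      jacobiSym u (∏ p ∈ S, p) := by
    intro S
    induction S using Finset.induction_on with
    | empty => intro _; simp
    | insert p S hp ih =>
      intro h
      rw [Finset.prod_insert hp, Finset.prod_insert hp,
        ih fun q hq => h q (Finset.mem_insert_of_mem hq)]
      have : NeZero p := ⟨h p (Finset.mem_insert_self _ _)⟩
      have : NeZero (∏ p ∈ S, p) :=
        ⟨Finset.prod_ne_zero_iff.2 fun q hq => h q (Finset.mem_insert_of_mem hq)⟩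
      rw [jacobiSym.mul_right]
  rw [h1 _ fun p hp => (Nat.prime_of_mem_primeFactors hp).ne_zero,
    Nat.prod_primeFactors_of_squarefree hA]

theorem gn_neg {A : ℕ} (hA : Squarefree A) (a b c b' : ℤ) :
    gn A (-a, b', -c) = jacobiSym (-1) A * gn A (a, b, c) := by
  rw [gn_eq, gn_eq, ← jac_prod _ hA, ← Finset.prod_mul_distrib]
  exact Finset.prod_congr rfl fun p _ => gp_neg p a b c b'

theorem gn_inf {A : ℕ} (hA : Squarefree A) (b C : ℤ) : gn A (0, b, C) = jacobiSym C A := by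
  rw [gn_eq, ← jac_prod _ hA]
  refine Finset.prod_congr rfl fun p _ => ?_
  unfold gp
  rw [if_pos (dvd_zero _)]

theorem gn_zero {A : ℕ} (hA : Squarefree A) (a b : ℤ) : gn A (a, b, 0) = jacobiSym a A := by
  rw [gn_eq, ← jac_prod _ hA]
  refine Finset.prod_congr rfl fun p hp => ?_
  have hpp := Nat.prime_of_mem_primeFactors hp
  unfold gp
  by_cases h : (p : ℤ) ∣ a
  · rw [if_pos h, jac_zero hpp h, jac_zero hpp (dvd_zero _)]
  · rw [if_neg h]

/-- the weight is invariant -/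
theorem wt_gn {A : ℕ} (hA : A % 2 = 1) (h17 : ¬ 17 ∣ A) : Wt A (gn A) where
  pos := by have : 0 < A := by omega
            exact_mod_cast this
  cop := by
    intro h
    exact h17 (by exact_mod_cast h)
  inv := fun h _ _ hq => gn_act hA hq.1 h

theorem parity_gn {A : ℕ} (hA : Squarefree A) : Parity A (gn A) (jacobiSym (-1) A) := by
  rintro ⟨a, b, c⟩ _
  exact gn_neg hA a b c b

theorem wi_gn {A : ℕ} (hA : Squarefree A) (C : ℤ) : wi A (gn A) C = jacobiSym C A :=
  gn_inf hA _ _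

theorem wo_gn {A : ℕ} (hA : Squarefree A) (C : ℤ) :
    wo A (gn A) C = jacobiSym 17 A * jacobiSym C A := by
  unfold wo
  rw [gn_zero hA, jacobiSym.mul_left]

/-- the sum of the character over a period vanishes -/
theorem sum_jac {A : ℕ} (hA : Squarefree A) (hodd : A % 2 = 1) (h1 : 1 < A) :
    ∑ C ∈ Finset.range A, jacobiSym (C : ℤ) A = 0 := by
  have : NeZero A := ⟨by omega⟩
  -- a unit with symbol `-1`
  obtain ⟨p, hp, hpA⟩ := Nat.exists_prime_and_dvd h1.ne'
  obtain ⟨m, hm⟩ := hpA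
  have hp2 : p ≠ 2 := by
    rintro rfl
    omega
  have : Fact p.Prime := ⟨hp⟩
  have hcop : Nat.Coprime p m := by
    rw [hm] at hA
    exact Nat.coprime_of_squarefree_mul hA
  have hm0 : m ≠ 0 := by
    rintro rfl
    omega
  obtain ⟨a, ha⟩ := FiniteField.exists_nonsquare (F := ZMod p) (by
    rw [ZMod.ringChar_zmod_n]
    exact hp2)
  obtain ⟨t, ht1, ht2⟩ := Nat.chineseRemainder hcop a.val 1
  have hneg : jacobiSym (t : ℤ) A = -1 := by
    have : NeZero m := ⟨hm0⟩
    rw [hm, jacobiSym.mul_right]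
    have h2 : jacobiSym (t : ℤ) m = 1 := by
      have h3 : (m : ℤ) ∣ (t : ℤ) - 1 := by
        have := (Nat.modEq_iff_dvd.1 ht2.symm)
        exact_mod_cast this
      rw [jac_congr h3]
      exact jacobiSym.one_left m
    have h4 : jacobiSym (t : ℤ) p = -1 := by
      rw [← jacobiSym.legendreSym.to_jacobiSym]
      rw [legendreSym.eq_neg_one_iff]
      have h5 : ((t : ℤ) : ZMod p) = a := by
        have h6 := (ZMod.natCast_eq_natCast_iff _ _ _).2 ht1
        rw [ZMod.natCast_zmod_val] at h6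
        exact_mod_cast h6
      rw [h5]
      exact ha
    rw [h2, h4, mul_one]
  -- multiplication by the unit
  have hct : IsCoprime (t : ℤ) (A : ℤ) := by
    rw [Int.isCoprime_iff_gcd_eq_one]
    by_contra h
    rw [(jacobiSym.eq_zero_iff_not_coprime).2 h] at hneg
    norm_num at hneg
  have hct' : Nat.Coprime t A := Nat.isCoprime_iff_coprime.1 hct
  have hsum : ∑ C ∈ Finset.range A, jacobiSym (C : ℤ) A =
      jacobiSym (t : ℤ) A * ∑ C ∈ Finset.range A, jacobiSym (C : ℤ) A := by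
    rw [Finset.mul_sum]
    symm
    refine Finset.sum_bij (fun j _ => t * j % A) ?_ ?_ ?_ ?_
    · intro j _
      exact Finset.mem_range.2 (Nat.mod_lt _ (by omega))
    · intro i hi j hj h
      rw [Finset.mem_range] at hi hj
      have h2 : t * i ≡ t * j [MOD A] := h
      have h3 := Nat.ModEq.cancel_left_of_coprime (by rw [Nat.gcd_comm]; exact hct') h2
      rwa [Nat.ModEq, Nat.mod_eq_of_lt hi, Nat.mod_eq_of_lt hj] at h3
    · intro r hr
      rw [Finset.mem_range] at hr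
      obtain ⟨j, hj⟩ := Nat.exists_mul_mod_eq_of_coprime r hct' (by omega)
      refine ⟨j % A, Finset.mem_range.2 (Nat.mod_lt _ (by omega)), ?_⟩
      rw [Nat.mul_mod, Nat.mod_mod, ← Nat.mul_mod, hj.2, Nat.mod_eq_of_lt hr]
    · intro j _
      rw [← jacobiSym.mul_left]
      refine jac_congr ?_
      push_cast
      exact (Int.ModEq.dvd (Int.mod_modEq _ _))
  rw [hneg] at hsum
  linarith

theorem mean_jac {A : ℕ} (hA : Squarefree A) (hodd : A % 2 = 1) (h1 : 1 < A) :
    Mean A (fun C => jacobiSym C A) := by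
  unfold Mean
  refine Eq.trans ?_ (sum_jac hA hodd h1)
  refine Finset.sum_bij' (fun C _ => (C + A).toNat) (fun C _ => (C : ℤ) - A) ?_ ?_ ?_ ?_ ?_
  · intro C hC
    rw [Finset.mem_Ico] at hC
    rw [Finset.mem_range]
    omega
  · intro C hC
    rw [Finset.mem_range] at hC
    rw [Finset.mem_Ico]
    omega
  · intro C hC
    rw [Finset.mem_Ico] at hC
    show ((C + A).toNat : ℤ) - A = C
    rw [Int.toNat_of_nonneg (by omega)]
    ring
  · intro C hC
    show ((C : ℤ) - A + A).toNat = C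
    rw [sub_add_cancel]
    exact Int.toNat_natCast C
  · intro C hC
    rw [Finset.mem_Ico] at hC
    have h2 : ((C + A).toNat : ℤ) = C + A := Int.toNat_of_nonneg (by omega)
    rw [h2]
    exact jac_congr ⟨-1, by ring⟩

theorem mean_wi {A : ℕ} (hA : Squarefree A) (hodd : A % 2 = 1) (h1 : 1 < A) :
    Mean A (wi A (gn A)) := by
  have h2 : wi A (gn A) = fun C => jacobiSym C A := funext fun C => wi_gn hA C
  rw [h2]
  exact mean_jac hA hodd h1

theorem mean_wo {A : ℕ} (hA : Squarefree A) (hodd : A % 2 = 1) (h1 : 1 < A) :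
    Mean A (wo A (gn A)) := by
  have h2 := mean_jac hA hodd h1
  unfold Mean at h2 ⊢
  rw [Finset.sum_congr rfl fun C _ => wo_gn hA C, ← Finset.mul_sum, h2, mul_zero]

/-! ### the corrections at the cusps -/

/-- the sum of the differences as a finite sum -/
theorem E_jac {A : ℕ} (hA : Squarefree A) (h4 : A % 4 = 1) (h1 : 1 < A) (x : ℤ) {m : ℤ}
    (hm : 0 < m) : E (fun C => jacobiSym C A) A x m = ea A x m := by
  have hodd : A % 2 = 1 := by omega
  have hneg : ∀ C : ℤ, jacobiSym (-C) A = 1 * jacobiSym C A := by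
    intro C
    rw [show -C = -1 * C by ring, jacobiSym.mul_left,
      jacobiSym.at_neg_one (Nat.odd_iff.2 hodd), ZMod.χ₄_nat_one_mod_four h4]
  have hper : ∀ C : ℤ, jacobiSym (C + A) A = jacobiSym C A := fun C => jac_congr ⟨1, by ring⟩
  have hApos : (0 : ℤ) < A := by exact_mod_cast (by omega : 0 < A)
  rw [E_mod hApos hper (mean_jac hA hodd h1) x hm]
  set r := x % m with hr
  have hr0 : 0 ≤ r := Int.emod_nonneg _ hm.ne'
  have hr1 : r < m := Int.emod_lt_of_pos _ hm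
  -- the change of the sign of the variable
  have hE : E (fun C => jacobiSym C A) A r m =
      ∑ᶠ C : ℤ, jacobiSym C A * (Int.sign (A * r - C * m) + Int.sign C) := by
    unfold E
    rw [← finsum_comp_equiv (Equiv.neg ℤ)]
    refine finsum_congr fun C => ?_
    show e (fun C => jacobiSym C A) A r m (-C) = _
    show jacobiSym (-C) A * (Int.sign (A * r + -C * m) - Int.sign (-C)) = _
    have e1 : (A : ℤ) * r + -C * m = A * r - C * m := by ring
    rw [hneg, e1, Int.sign_neg]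
    ring
  rw [hE]
  have hs : Function.support (fun C : ℤ => jacobiSym C A * (Int.sign (A * r - C * m) + Int.sign C)) ⊆
      (((Finset.range A).image (fun C : ℕ => (C : ℤ)) : Finset ℤ) : Set ℤ) := by
    intro C hC
    have h2 : jacobiSym C A * (Int.sign (A * r - C * m) + Int.sign C) ≠ 0 := hC
    rw [Finset.mem_coe, Finset.mem_image]
    by_cases h3 : 0 ≤ C ∧ C < A
    · refine ⟨C.toNat, ?_, Int.toNat_of_nonneg h3.1⟩
      rw [Finset.mem_range]
      omega
    · exfalso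
      apply h2
      rw [not_and_or, not_le, not_lt] at h3
      rcases h3 with h3 | h3
      · have h4 : 0 < (A : ℤ) * r - C * m := by nlinarith
        rw [Int.sign_eq_one_of_pos h4, Int.sign_eq_neg_one_of_neg h3]
        ring
      · have h4 : (A : ℤ) * r - C * m < 0 := by nlinarith
        have h5 : 0 < C := by omega
        rw [Int.sign_eq_neg_one_of_neg h4, Int.sign_eq_one_of_pos h5]
        ring
  rw [finsum_eq_sum_of_support_subset _ hs, Finset.sum_image (by
    intro a _ b _ h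
    exact Nat.cast_injective (R := ℤ) h)]
  unfold ea
  refine Finset.sum_congr rfl fun C hC => ?_
  rw [← hr]
  rcases Nat.eq_zero_or_pos C with h2 | h2
  · subst h2
    have h3 : jacobiSym (0 : ℤ) A = 0 := jacobiSym.zero_left h1
    push_cast
    rw [h3, zero_mul, zero_mul]
  · have h3 : (0 : ℤ) < C := by exact_mod_cast h2
    rw [Int.sign_eq_one_of_pos h3]
    ring

/-! ### the counting function -/

open Classical in
/-- the part with `B = A` modulo `17` -/
def f1 (A : ℕ) (x m : ℤ) (q : ℤ × ℤ × ℤ) : ℤ :=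
  if inF A q ∧ 0 < q.1 ∧ ev q x m < 0 then ca A q else 0

open Classical in
/-- the part with `B = -A` modulo `17` -/
def f2 (A : ℕ) (x m : ℤ) (q : ℤ × ℤ × ℤ) : ℤ :=
  if inF A (-q) ∧ 0 < q.1 ∧ ev q x m < 0 then ca A q else 0

theorem ca_pos {A : ℕ} {q : ℤ × ℤ × ℤ} (hq : inF A q) : ca A q = gn A q := by
  unfold ca
  rw [if_pos hq.2.2, one_mul]

theorem gn_neg' {A : ℕ} (hA : Squarefree A) (h4 : A % 4 = 1) (q : ℤ × ℤ × ℤ) :
    gn A (-q) = gn A q := by
  obtain ⟨a, b, c⟩ := q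
  have h := gn_neg hA a b c (-b)
  rw [jacobiSym.at_neg_one (Nat.odd_iff.2 (by omega)), ZMod.χ₄_nat_one_mod_four h4, one_mul] at h
  exact h

theorem ca_neg {A : ℕ} (hA : Squarefree A) (h4 : A % 4 = 1) (h17 : ¬ 17 ∣ A) {q : ℤ × ℤ × ℤ}
    (hq : inF A q) : ca A (-q) = -gn A q := by
  unfold ca
  have h : ¬ ((17 : ℤ) ∣ (-q).2.1 - A) := by
    intro h1
    have h2 := hq.2.2
    rw [Prod.snd_neg, Prod.fst_neg] at h1
    apply h17
    have h3 : (17 : ℤ) ∣ A := by omega
    exact_mod_cast h3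
  rw [if_neg h, gn_neg' hA h4]
  ring

theorem U_split {A : ℕ} (hA : Squarefree A) (h4 : A % 4 = 1) (h17 : ¬ 17 ∣ A) (x m : ℤ)
    (q : ℤ × ℤ × ℤ) : U A (gn A) 1 0 x m q = 2 * f1 A x m q + 2 * f2 A x m (-q) := by
  unfold U f1 f2
  rw [neg_neg, ev_neg, ev10]
  simp only [Prod.fst_neg]
  by_cases hq : inF A q ∧ q.1 ≠ 0 ∧ ev q x m ≠ 0
  · rw [if_pos hq, ca_pos hq.1, ca_neg hA h4 h17 hq.1]
    obtain ⟨hF, h2, h3⟩ := hq
    rcases lt_or_gt_of_ne h2 with h4 | h4
    · have n1 : ¬ (inF A q ∧ 0 < q.1 ∧ ev q x m < 0) := fun h => by linarith [h.2.1]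
      rw [if_neg n1, Int.sign_eq_neg_one_of_neg h4]
      rcases lt_or_gt_of_ne h3 with h5 | h5
      · have n2 : ¬ (inF A q ∧ 0 < -q.1 ∧ -ev q x m < 0) := fun h => by linarith [h.2.2]
        rw [if_neg n2, Int.sign_eq_neg_one_of_neg h5]
        ring
      · have n2 : (inF A q ∧ 0 < -q.1 ∧ -ev q x m < 0) := ⟨hF, by linarith, by linarith⟩
        rw [if_pos n2, Int.sign_eq_one_of_pos h5]
        ring
    · have n1 : ¬ (inF A q ∧ 0 < -q.1 ∧ -ev q x m < 0) := fun h => by linarith [h.2.1]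
      rw [if_neg n1, Int.sign_eq_one_of_pos h4]
      rcases lt_or_gt_of_ne h3 with h5 | h5
      · have n2 : (inF A q ∧ 0 < q.1 ∧ ev q x m < 0) := ⟨hF, h4, h5⟩
        rw [if_pos n2, Int.sign_eq_neg_one_of_neg h5]
        ring
      · have n2 : ¬ (inF A q ∧ 0 < q.1 ∧ ev q x m < 0) := fun h => by linarith [h.2.2]
        rw [if_neg n2, Int.sign_eq_one_of_pos h5]
        ring
  · have n1 : ¬ (inF A q ∧ 0 < q.1 ∧ ev q x m < 0) := fun h => hq ⟨h.1, h.2.1.ne', h.2.2.ne⟩
    have n2 : ¬ (inF A q ∧ 0 < -q.1 ∧ -ev q x m < 0) := fun h =>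
      hq ⟨h.1, (by have := h.2.1; omega), (by have := h.2.2; omega)⟩
    rw [if_neg hq, if_neg n1, if_neg n2]
    ring

theorem f_bound {A : ℕ} {x m : ℤ} {q : ℤ × ℤ × ℤ}
    (h : q.2.1 ^ 2 - 4 * q.1 * q.2.2 = (A : ℤ) ^ 2 ∧ 0 < q.1 ∧ ev q x m < 0) :
    4 * |q.1| ≤ (A : ℤ) ^ 2 * m ^ 2 ∧ |2 * q.1 * x + q.2.1 * m| < |(A : ℤ)| * |m| :=
  bound h.1 (mul_neg_of_pos_of_neg h.2.1 h.2.2)

theorem box_fin {A : ℕ} {x m : ℤ} (hm : m ≠ 0) :
    {q : ℤ × ℤ × ℤ | q.2.1 ^ 2 - 4 * q.1 * q.2.2 = (A : ℤ) ^ 2 ∧ 0 < q.1 ∧ ev q x m < 0}.Finite := by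
  set K : ℤ := (A : ℤ) ^ 2 * m ^ 2 with hK
  set L : ℤ := |(A : ℤ)| * |m| + 2 * K * |x| with hL
  set R : ℤ := L ^ 2 + (A : ℤ) ^ 2 with hR
  refine ((Set.finite_Icc (-K) K).prod ((Set.finite_Icc (-L) L).prod
    (Set.finite_Icc (-R) R))).subset ?_
  intro q hq
  obtain ⟨h2, h3⟩ := f_bound hq
  have hA : |q.1| ≤ K := by
    have := abs_nonneg q.1
    omega
  have hM1 : 1 ≤ |m| := Int.one_le_abs hm
  have hB : |q.2.1| ≤ L := by
    have h4 : |q.2.1 * m| ≤ |2 * q.1 * x + q.2.1 * m| + |2 * q.1 * x| := by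
      have h5 : q.2.1 * m = (2 * q.1 * x + q.2.1 * m) - 2 * q.1 * x := by ring
      calc |q.2.1 * m| = |(2 * q.1 * x + q.2.1 * m) - 2 * q.1 * x| := by rw [← h5]
        _ ≤ _ := abs_sub _ _
    have h6 : |2 * q.1 * x| ≤ 2 * K * |x| := by
      rw [abs_mul, abs_mul]
      have : |(2:ℤ)| = 2 := rfl
      rw [this]
      have := abs_nonneg x
      nlinarith
    have h7 : |q.2.1| ≤ |q.2.1 * m| := by
      rw [abs_mul]
      exact le_mul_of_one_le_right (abs_nonneg _) hM1
    rw [hL]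
    linarith
  have hC : |q.2.2| ≤ R := by
    have h4 : 4 * (q.1 * q.2.2) = q.2.1 ^ 2 - (A : ℤ) ^ 2 := by
      have := hq.1
      linarith
    have h5 : 4 * (|q.1| * |q.2.2|) ≤ q.2.1 ^ 2 + (A : ℤ) ^ 2 := by
      rw [← abs_mul]
      rcases abs_cases (q.1 * q.2.2) with ⟨h6, _⟩ | ⟨h6, _⟩ <;> rw [h6] <;>
        nlinarith [sq_nonneg q.2.1, sq_nonneg (A : ℤ)]
    have h6 : q.2.1 ^ 2 ≤ L ^ 2 := by
      rw [← sq_abs q.2.1]
      exact pow_le_pow_left₀ (abs_nonneg _) hB 2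
    have h7 : 1 ≤ |q.1| := Int.one_le_abs hq.2.1.ne'
    have h8 : |q.2.2| ≤ |q.1| * |q.2.2| := le_mul_of_one_le_left (abs_nonneg _) h7
    have h9 := abs_nonneg q.2.2
    have h10 := sq_nonneg (A : ℤ)
    rw [hR]
    linarith
  refine ⟨?_, ?_, ?_⟩
  · exact abs_le.1 hA
  · exact abs_le.1 hB
  · exact abs_le.1 hC

theorem f1_fin {A : ℕ} {x m : ℤ} (hm : m ≠ 0) : (Function.support (f1 A x m)).Finite := by
  refine (box_fin (A := A) (x := x) hm).subset ?_
  intro q hq
  have h1 : f1 A x m q ≠ 0 := hq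
  unfold f1 at h1
  by_cases h2 : inF A q ∧ 0 < q.1 ∧ ev q x m < 0
  · exact ⟨h2.1.1, h2.2⟩
  · rw [if_neg h2] at h1
    exact absurd rfl h1

theorem f2_fin {A : ℕ} {x m : ℤ} (hm : m ≠ 0) : (Function.support (f2 A x m)).Finite := by
  refine (box_fin (A := A) (x := x) hm).subset ?_
  intro q hq
  have h1 : f2 A x m q ≠ 0 := hq
  unfold f2 at h1
  by_cases h2 : inF A (-q) ∧ 0 < q.1 ∧ ev q x m < 0
  · refine ⟨?_, h2.2⟩
    have h3 := h2.1.1
    simp only [Prod.fst_neg, Prod.snd_neg] at h3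
    linear_combination h3
  · rw [if_neg h2] at h1
    exact absurd rfl h1

theorem Fa_split (A : ℕ) (q : ℤ × ℤ × ℤ) : Fa A q ↔ (inF A q ∨ inF A (-q)) := by
  obtain ⟨a, b, c⟩ := q
  unfold Fa inF
  simp only [Prod.fst_neg, Prod.snd_neg]
  constructor
  · rintro ⟨h1, h2, h3 | h3⟩
    · left
      exact ⟨h1, h2, h3⟩
    · right
      exact ⟨by linear_combination h1, (dvd_neg).2 h2, by omega⟩
  · rintro (⟨h1, h2, h3⟩ | ⟨h1, h2, h3⟩)
    · exact ⟨h1, h2, Or.inl h3⟩
    · exact ⟨by linear_combination h1, (dvd_neg).1 h2, Or.inr (by omega)⟩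

/-- the relation with the counting function -/
theorem X_eq {A : ℕ} (hA : Squarefree A) (h4 : A % 4 = 1) (h17 : ¬ 17 ∣ A) {x m : ℤ} (hm : m ≠ 0) :
    X A (gn A) x m = 2 * FG A x m := by
  classical
  have h1 : FG A x m = ∑ᶠ q, (f1 A x m q + f2 A x m q) := by
    unfold FG
    apply finsum_congr
    intro q
    unfold f1 f2
    have hex : ¬ (inF A q ∧ inF A (-q)) := by
      rintro ⟨⟨_, _, h1⟩, ⟨_, _, h2⟩⟩
      rw [Prod.snd_neg, Prod.fst_neg] at h2
      apply h17
      have h3 : (17 : ℤ) ∣ A := by omega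
      exact_mod_cast h3
    have he : ev q x m = q.1 * x ^ 2 + q.2.1 * x * m + q.2.2 * m ^ 2 := rfl
    rw [← he]
    by_cases hs : 0 < q.1 ∧ ev q x m < 0
    · by_cases h3 : inF A q
      · have h4 : ¬ inF A (-q) := fun h => hex ⟨h3, h⟩
        rw [if_pos ⟨(Fa_split A q).2 (Or.inl h3), hs⟩, if_pos ⟨h3, hs⟩, if_neg (fun h => h4 h.1),
          add_zero]
      · by_cases h4 : inF A (-q)
        · rw [if_pos ⟨(Fa_split A q).2 (Or.inr h4), hs⟩, if_neg (fun h => h3 h.1), if_pos ⟨h4, hs⟩,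
            zero_add]
        · have h5 : ¬ Fa A q := fun h => ((Fa_split A q).1 h).elim h3 h4
          rw [if_neg (fun h => h5 h.1), if_neg (fun h => h3 h.1), if_neg (fun h => h4 h.1),
            add_zero]
    · rw [if_neg (fun h => hs h.2), if_neg (fun h => hs h.2), if_neg (fun h => hs h.2), add_zero]
  have h2 : ∑ᶠ q, f2 A x m (-q) = ∑ᶠ q, f2 A x m q :=
    finsum_comp_equiv (Equiv.neg (ℤ × ℤ × ℤ)) (f := f2 A x m)
  have hf2 : (Function.support fun q => f2 A x m (-q)).Finite := by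
    have := (f2_fin (A := A) (x := x) hm).preimage
      ((neg_injective (G := ℤ × ℤ × ℤ)).injOn (s := (Neg.neg) ⁻¹' Function.support (f2 A x m)))
    exact this
  have h3 : X A (gn A) x m = 2 * (∑ᶠ q, f1 A x m q) + 2 * (∑ᶠ q, f2 A x m (-q)) := by
    unfold X
    rw [finsum_congr (U_split hA h4 h17 x m), finsum_add_distrib, mul_finsum, mul_finsum]
    · exact (f1_fin hm).subset (Function.support_mul_subset_right _ _)
    · exact hf2.subset (Function.support_mul_subset_right _ _)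
  rw [h1, h3, h2, finsum_add_distrib (f1_fin hm) (f2_fin hm)]
  ring

/-! ### SYMG -/

theorem par_one {A : ℕ} (h4 : A % 4 = 1) : jacobiSym (-1) A = 1 := by
  rw [jacobiSym.at_neg_one (Nat.odd_iff.2 (by omega)), ZMod.χ₄_nat_one_mod_four h4]

/-- the twisted symbol in terms of the homomorphism -/
theorem Ft_eq {A : ℕ} (hA : Ca A) {b c d : ℤ} (hd : 0 < d) : HH A (gn A) b c d = Ft A b c d := by
  obtain ⟨hsq, h4, h1, h17⟩ := hA
  have h17' : ¬ 17 ∣ A := by
    intro h
    have h2 : jacobiSym A 17 = 0 := jac_zero (by norm_num) (by exact_mod_cast h)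
    rw [h2] at h17
    norm_num at h17
  have hpar : Parity A (gn A) 1 := by
    have := parity_gn hsq
    rwa [par_one h4] at this
  have H := wt_gn (by omega : A % 2 = 1) h17'
  have hX0 := X_neg (Or.inl rfl) hpar 0 1
  rw [neg_zero] at hX0
  have hi : wi A (gn A) = fun C => jacobiSym C A := funext fun C => wi_gn hsq C
  have h17q : jacobiSym 17 A = 1 := by
    have h2 := jacobiSym.quadratic_reciprocity_one_mod_four (a := 17) (b := A) (by norm_num)
      (Nat.odd_iff.2 (by omega))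
    push_cast at h2
    rw [h2, h17]
  have ho : wo A (gn A) = fun C => jacobiSym C A := funext fun C => by
    rw [wo_gn hsq, h17q, one_mul]
  have hneg := E_neg (M := A) (w := fun C => jacobiSym C A) (Or.inl rfl)
    (fun C => by
      have h5 := wi_neg H hpar C
      rw [hi] at h5
      exact h5) c d
  unfold HH Ft
  rw [E'_pos hd, E'_pos hd, hi, ho, hneg, E_jac hsq h4 h1 b hd, E_jac hsq h4 h1 c hd,
    X_eq hsq h4 h17' hd.ne']
  linarith

/-- **SYMG** -/
theorem t_SYMG : S_SYMG := by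
  intro A hA a b c d hdet hd
  have hA' := hA
  obtain ⟨hsq, h4, h1, h17⟩ := hA
  have h17' : ¬ 17 ∣ A := by
    intro h
    have h2 : jacobiSym A 17 = 0 := jac_zero (by norm_num) (by exact_mod_cast h)
    rw [h2] at h17
    norm_num at h17
  have hpar : Parity A (gn A) 1 := by
    have := parity_gn hsq
    rwa [par_one h4] at this
  have hodd : A % 2 = 1 := by omega
  have H := wt_gn hodd h17'
  have hom : OddHom (fun _ b c d : ℤ => 2 * HH A (gn A) b c d - Ft A 1 1 3 * GG b c d) :=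
    { hom := by
        intro a b c d a' b' c' d' h h'
        rw [HH_hom H h h', N975.S17.GG_hom h h']
        ring
      neg := by
        intro a b c d h
        rw [HH_neg (d_ne h), N975.S17.GG_neg_neg (d_ne h)]
      odd := by
        intro a b c d h
        rw [HH_odd H hpar, N975.S17.GG_neg (d_ne h)]
        ring
      hT := by
        rw [HH_T H (mean_wi hsq hodd h1), N975.S17.GG_T]
        ring
      hV := by
        rw [HH_V H (mean_wo hsq hodd h1), N975.S17.GG_V]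
        ring
      h3 := by
        rw [N975.S17.GG_3, Ft_eq hA' (by norm_num)]
        ring }
  have h2 := hom.zero d.natAbs a b c d hdet rfl
  have h3 : 2 * HH A (gn A) b c d = Ft A 1 1 3 * GG b c d := by linarith
  rw [Ft_eq hA' hd, GG_pos hd] at h3
  exact h3

end

end Pool.Agent.N975.PG
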