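import Pool.Agent.N975.PG.Gn
import Pool.Agent.N969.P17G.Defs

/-!
# SYMG in the frozen form
-/

set_option autoImplicit false

open Finset

namespace Pool.Agent.N975.PG

open Pool.Agent.N972.P17 (Cp Gs)

noncomputable section

theorem ca_of {A : ℕ} (hA : Cp A) (h1 : 1 < A) : Ca A := ⟨hA.1, hA.2.1, h1, hA.2.2⟩

theorem cp17 {A : ℕ} (hA : Cp A) : ¬ 17 ∣ A := by
  intro h
  have h17 := hA.2.2
  have h2 : jacobiSym A 17 = 0 := jac_zero (by norm_num) (by exact_mod_cast h)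
  rw [h2] at h17
  norm_num at h17

theorem Fg_eq {A : ℕ} (hA : ¬ 17 ∣ A) (x M : ℤ) : N969.P17G.Fg A x M = FG A x M := by
  classical
  unfold N969.P17G.Fg FG
  apply finsum_congr
  intro q
  have h1 : N969.P17G.FmA A q ↔ Fa A q := by
    unfold N969.P17G.FmA Fa
    constructor
    · rintro ⟨h1, h2⟩
      refine ⟨h1, h2, ?_⟩
      have h3 : (17 : ℤ) ∣ (q.2.1 - A) * (q.2.1 + A) := by
        obtain ⟨t, ht⟩ := h2
        exact ⟨4 * t * q.2.2, by rw [ht] at h1; linear_combination h1⟩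
      exact (Int.prime_iff_natAbs_prime.2 (by norm_num)).dvd_or_dvd h3
    · rintro ⟨h1, h2, -⟩
      exact ⟨h1, h2⟩
  simp only [h1]
  rfl

theorem bd_eq {A : ℕ} (hA : Ca A) (x M : ℤ) : N969.P17G.bd A x M = ea A x M := by
  obtain ⟨hsq, h4, h1, -⟩ := hA
  unfold N969.P17G.bd ea
  have h2 : ∀ C ∈ range A, jacobiSym (C : ℤ) A * (1 + Int.sign ((A : ℤ) * (x % M) - C * M)) =
      jacobiSym (C : ℤ) A + jacobiSym (C : ℤ) A * Int.sign ((A : ℤ) * (x % M) - C * M) :=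
    fun C _ => by ring
  rw [Finset.sum_congr rfl h2, Finset.sum_add_distrib, sum_jac hsq (by omega) h1, zero_add]

theorem Gg_eq {A : ℕ} (hA : Ca A) (b c d : ℤ) : N969.P17G.Gg A b c d = Ft A b c d := by
  unfold N969.P17G.Gg Ft
  rw [bd_eq hA, bd_eq hA, Fg_eq (cp17 ⟨hA.1, hA.2.1, hA.2.2.2⟩)]

/-- **SYMG**, frozen form -/
theorem t_SYMG' : N969.P17G.S_SYMG := by
  intro A hA h1
  have hC := ca_of hA h1
  have h17' := cp17 hA
  obtain ⟨hsq, h4, -⟩ := hA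
  have hpar : Parity A (gn A) 1 := by
    have := parity_gn hsq
    rwa [par_one h4] at this
  have hodd : A % 2 = 1 := by omega
  have H := wt_gn hodd h17'
  refine ⟨?_, ?_, ?_, ?_⟩
  · intro a b c d a' b' c' d' h h' hd hd' hD
    rw [Gg_eq hC, Gg_eq hC, Gg_eq hC, ← Ft_eq hC hd, ← Ft_eq hC hd', ← Ft_eq hC hD]
    exact HH_hom H h h'
  · intro b c d hd
    rw [Gg_eq hC, Gg_eq hC, ← Ft_eq hC hd, ← Ft_eq hC hd]
    exact HH_odd H hpar b c d
  · rw [Gg_eq hC, ← Ft_eq hC one_pos]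
    exact HH_T H (mean_wi hsq hodd h1)
  · rw [Gg_eq hC, ← Ft_eq hC one_pos]
    exact HH_V H (mean_wo hsq hodd h1)

/-- the comparison with the symbol of discriminant `4` -/
theorem Gg_prop {A : ℕ} (hA : Cp A) (h1 : 1 < A) {a b c d : ℤ}
    (hdet : a * d - 17 * (b * c) = 1) (hd : 0 < d) :
    2 * N969.P17G.Gg A b c d = N969.P17G.Gg A 1 1 3 * Gs b c d := by
  rw [Gg_eq (ca_of hA h1), Gg_eq (ca_of hA h1)]
  exact t_SYMG A (ca_of hA h1) a b c d hdet hd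

end

end Pool.Agent.N975.PG
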