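import Pool.Agent.N972.P17.Defs

/-!
# Project P17G: the twisted symbol of level `17` (positive discriminants)

`A > 1` is squarefree, `A = 1 mod 4`, prime to `17` with `(A / 17) = 1`.
-/

set_option autoImplicit false

namespace Pool.Agent.N975.PG

open Finset

noncomputable section

/-- the genus symbol of a form modulo the primes dividing `A` -/
def gn (A : ℕ) (q : ℤ × ℤ × ℤ) : ℤ :=
  ∏ p ∈ A.primeFactors, if (p : ℤ) ∣ q.1 then jacobiSym q.2.2 p else jacobiSym q.1 p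

/-- the forms of discriminant `A ^ 2` entering the twisted symbol -/
def Fa (A : ℕ) (q : ℤ × ℤ × ℤ) : Prop := q.2.1 ^ 2 - 4 * q.1 * q.2.2 = (A : ℤ) ^ 2 ∧
  (17 : ℤ) ∣ q.1 ∧ ((17 : ℤ) ∣ q.2.1 - A ∨ (17 : ℤ) ∣ q.2.1 + A)

/-- the weight of a form: a sign for the orientation times the genus symbol -/
def ca (A : ℕ) (q : ℤ × ℤ × ℤ) : ℤ := (if (17 : ℤ) ∣ q.2.1 - A then 1 else -1) * gn A q

open Classical in
/-- the weighted number of forms changing sign between `∞` and `x / M` -/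
def FG (A : ℕ) (x M : ℤ) : ℤ := ∑ᶠ q : ℤ × ℤ × ℤ,
  if Fa A q ∧ 0 < q.1 ∧ q.1 * x ^ 2 + q.2.1 * x * M + q.2.2 * M ^ 2 < 0 then ca A q else 0

/-- the correction at the cusps: twice the sum of `(C / A)` over `0 < C < A x / M`, the end with
weight one half, `x` reduced modulo `M` -/
def ea (A : ℕ) (x M : ℤ) : ℤ :=
  ∑ C ∈ range A, jacobiSym C A * (1 + Int.sign ((A : ℤ) * (x % M) - C * M))

/-- the twisted symbol of a matrix `(a, b; 17 c, d)`, `0 < d` -/
def Ft (A : ℕ) (b c d : ℤ) : ℤ := 2 * FG A b d - ea A b d - ea A c d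

/-- the class of the odd positive discriminants -/
def Ca (A : ℕ) : Prop := Squarefree A ∧ A % 4 = 1 ∧ 1 < A ∧ jacobiSym A 17 = 1

/-- SYMG: the twisted symbol is a multiple of the odd symbol -/
def S_SYMG : Prop := ∀ A : ℕ, Ca A → ∀ a b c d : ℤ, a * d - 17 * (b * c) = 1 → 0 < d →
  2 * Ft A b c d = Ft A 1 1 3 * N972.P17.Gs b c d

end

end Pool.Agent.N975.PG
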