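import Pool.Agent.N975.S17.Hom
import Pool.Agent.N975.PG.Defs

/-!
# The homomorphism on `Γ₀(17)` defined by an invariant weight on the forms of discriminant `M ^ 2`
-/

set_option autoImplicit false

namespace Pool.Agent.N975.PG

open Pool.Agent.N975.Sym (ev act act_inv eqv ev_act ev10 ev_neg)
open Pool.Agent.N975.S17 (ev01 sgn_id sign_cases sign_mul_pos finsum_family finite_family fin_eqv
  sum_eqv ev_neg_neg d_ne)

noncomputable section

/-- the set of forms -/
def inF (M : ℤ) (q : ℤ × ℤ × ℤ) : Prop :=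
  q.2.1 ^ 2 - 4 * q.1 * q.2.2 = M ^ 2 ∧ (17 : ℤ) ∣ q.1 ∧ (17 : ℤ) ∣ q.2.1 - M

/-- an invariant weight -/
structure Wt (M : ℤ) (k : ℤ × ℤ × ℤ → ℤ) : Prop where
  pos : 0 < M
  cop : ¬ (17 : ℤ) ∣ M
  inv : ∀ {a b c d : ℤ}, a * d - b * c = 1 → (17 : ℤ) ∣ c → ∀ {q : ℤ × ℤ × ℤ}, inF M q →
    k (act a b c d q) = k q

variable {M : ℤ} {k : ℤ × ℤ × ℤ → ℤ}

theorem inF_act {a b c d : ℤ} (h : a * d - b * c = 1) (hc : (17 : ℤ) ∣ c) {q : ℤ × ℤ × ℤ}
    (hq : inF M q) : inF M (act a b c d q) := by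
  obtain ⟨A, B, C⟩ := q
  obtain ⟨c1, rfl⟩ := hc
  obtain ⟨h1, ⟨A1, h2⟩, ⟨B1, h3⟩⟩ := hq
  simp only at h1 h2 h3
  refine ⟨?_, ?_, ?_⟩
  · unfold act
    simp only
    linear_combination (a * d - b * (17 * c1)) ^ 2 * h1 +
      M ^ 2 * (a * d - b * (17 * c1) + 1) * h
  · unfold act
    simp only
    exact ⟨A1 * a ^ 2 + B * a * c1 + C * c1 ^ 2 * 17, by rw [h2]; ring⟩
  · unfold act
    simp only
    refine ⟨2 * A1 * a * b + 2 * B * b * c1 + 2 * C * c1 * d + B1, ?_⟩
    rw [h2]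
    linear_combination B * h + h3

theorem inF_act_iff {a b c d : ℤ} (h : a * d - b * c = 1) (hc : (17 : ℤ) ∣ c) {q : ℤ × ℤ × ℤ} :
    inF M (act a b c d q) ↔ inF M q := by
  refine ⟨fun hq => ?_, inF_act h hc⟩
  have h' : d * a - (-b) * (-c) = 1 := by linear_combination h
  have h1 := inF_act h' (hc.neg_right) hq
  rwa [act_inv h] at h1

open Classical in
/-- the difference of the signs at two points if no sign vanishes -/
def U (M : ℤ) (k : ℤ × ℤ × ℤ → ℤ) (x m y n : ℤ) (q : ℤ × ℤ × ℤ) : ℤ :=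
  if inF M q ∧ ev q x m ≠ 0 ∧ ev q y n ≠ 0 then
    k q * (Int.sign (ev q x m) - Int.sign (ev q y n)) else 0

open Classical in
/-- the difference of the signs for the forms vanishing at infinity -/
def Zi (M : ℤ) (k : ℤ × ℤ × ℤ → ℤ) (x m y n : ℤ) (q : ℤ × ℤ × ℤ) : ℤ :=
  if inF M q ∧ q.1 = 0 then k q * (Int.sign (ev q x m) - Int.sign (ev q y n)) else 0

open Classical in
/-- the difference of the signs for the forms vanishing at zero -/
def Zo (M : ℤ) (k : ℤ × ℤ × ℤ → ℤ) (x m y n : ℤ) (q : ℤ × ℤ × ℤ) : ℤ :=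
  if inF M q ∧ q.2.2 = 0 then k q * (Int.sign (ev q x m) - Int.sign (ev q y n)) else 0

theorem U_act (H : Wt M k) {a b c d : ℤ} (h : a * d - b * c = 1) (hc : (17 : ℤ) ∣ c)
    (x m y n : ℤ) (q : ℤ × ℤ × ℤ) :
    U M k (a * x + b * m) (c * x + d * m) (a * y + b * n) (c * y + d * n) q =
      U M k x m y n (act a b c d q) := by
  unfold U
  rw [ev_act, ev_act]
  by_cases hq : inF M q
  · have h1 := inF_act h hc hq
    simp only [hq, h1, true_and, H.inv h hc hq]
  · have h1 : ¬ inF M (act a b c d q) := fun h2 => hq ((inF_act_iff h hc).1 h2)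
    simp only [hq, h1, false_and, if_false]

theorem U_comm (x m y n : ℤ) (q : ℤ × ℤ × ℤ) : U M k x m y n q = -U M k y n x m q := by
  unfold U
  by_cases h : inF M q ∧ ev q x m ≠ 0 ∧ ev q y n ≠ 0
  · rw [if_pos h, if_pos ⟨h.1, h.2.2, h.2.1⟩]
    ring
  · rw [if_neg h, if_neg (fun h' => h ⟨h'.1, h'.2.2, h'.2.1⟩), neg_zero]

theorem key {q : ℤ × ℤ × ℤ} (h : q.2.1 ^ 2 - 4 * q.1 * q.2.2 = M ^ 2) (x m : ℤ) :
    4 * (q.1 * ev q x m) = (2 * q.1 * x + q.2.1 * m) ^ 2 - M ^ 2 * m ^ 2 := by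
  unfold ev
  linear_combination -(m ^ 2) * h

theorem U_ne {x m : ℤ} {q : ℤ × ℤ × ℤ} (h : U M k 1 0 x m q ≠ 0) :
    inF M q ∧ q.1 * ev q x m < 0 := by
  unfold U at h
  by_cases hq : inF M q ∧ ev q 1 0 ≠ 0 ∧ ev q x m ≠ 0
  · refine ⟨hq.1, ?_⟩
    rw [if_pos hq, ev10] at h
    have h1 : Int.sign (ev q x m) ≠ Int.sign q.1 := by
      intro h2
      apply h
      rw [h2, sub_self, mul_zero]
    have h2 := hq.2.1
    rw [ev10] at h2
    have h3 := hq.2.2
    rcases lt_or_gt_of_ne h2 with h4 | h4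
    · rcases lt_or_gt_of_ne h3 with h5 | h5
      · exact absurd (by rw [Int.sign_eq_neg_one_of_neg h4, Int.sign_eq_neg_one_of_neg h5]) h1
      · exact mul_neg_of_neg_of_pos h4 h5
    · rcases lt_or_gt_of_ne h3 with h5 | h5
      · exact mul_neg_of_pos_of_neg h4 h5
      · exact absurd (by rw [Int.sign_eq_one_of_pos h4, Int.sign_eq_one_of_pos h5]) h1
  · rw [if_neg hq] at h
    exact absurd rfl h

theorem bound {x m : ℤ} {q : ℤ × ℤ × ℤ} (hd : q.2.1 ^ 2 - 4 * q.1 * q.2.2 = M ^ 2)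
    (h : q.1 * ev q x m < 0) :
    4 * |q.1| ≤ M ^ 2 * m ^ 2 ∧ |2 * q.1 * x + q.2.1 * m| < |M| * |m| := by
  have h1 := key hd x m
  have h2 : (2 * q.1 * x + q.2.1 * m) ^ 2 < (M * m) ^ 2 := by nlinarith
  have h3 := sq_lt_sq.1 h2
  rw [abs_mul M m] at h3
  refine ⟨?_, h3⟩
  have h4 : ev q x m ≠ 0 := by
    intro h5; rw [h5, mul_zero] at h; exact lt_irrefl _ h
  have h5 : 1 ≤ |ev q x m| := Int.one_le_abs h4
  have h6 : |q.1| * |ev q x m| = -(q.1 * ev q x m) := by
    rw [← abs_mul, abs_of_neg h]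
  have h7 : |q.1| ≤ |q.1| * |ev q x m| := le_mul_of_one_le_right (abs_nonneg _) h5
  nlinarith [sq_nonneg (2 * q.1 * x + q.2.1 * m)]

theorem U_fin {x m : ℤ} (hm : m ≠ 0) : (Function.support (U M k 1 0 x m)).Finite := by
  set K : ℤ := M ^ 2 * m ^ 2 with hK
  set L : ℤ := |M| * |m| + 2 * K * |x| with hL
  set R : ℤ := L ^ 2 + M ^ 2 with hR
  refine ((Set.finite_Icc (-K) K).prod ((Set.finite_Icc (-L) L).prod
    (Set.finite_Icc (-R) R))).subset ?_
  intro q hq
  have h1 := U_ne hq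
  have hA0 : q.1 ≠ 0 := by
    intro h0
    have := h1.2
    rw [h0, zero_mul] at this
    exact lt_irrefl _ this
  obtain ⟨h2, h3⟩ := bound h1.1.1 h1.2
  have hA : |q.1| ≤ K := by
    have := abs_nonneg q.1
    omega
  have hM1 : 1 ≤ |m| := Int.one_le_abs hm
  have hB : |q.2.1| ≤ L := by
    have h4 : |q.2.1 * m| ≤ |2 * q.1 * x + q.2.1 * m| + |2 * q.1 * x| := by
      have h5 : q.2.1 * m = (2 * q.1 * x + q.2.1 * m) - 2 * q.1 * x := by ring
      calc |q.2.1 * m| = |(2 * q.1 * x + q.2.1 * m) - 2 * q.1 * x| := by rw [← h5]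
        _ ≤ _ := abs_sub _ _
    have h6 : |2 * q.1 * x| ≤ 2 * K * |x| := by
      rw [abs_mul, abs_mul]
      have : |(2:ℤ)| = 2 := rfl
      rw [this]
      have := abs_nonneg x
      nlinarith
    have h7 : |q.2.1| ≤ |q.2.1 * m| := by
      rw [abs_mul]
      exact le_mul_of_one_le_right (abs_nonneg _) hM1
    rw [hL]
    linarith
  have hC : |q.2.2| ≤ R := by
    have h4 : 4 * (q.1 * q.2.2) = q.2.1 ^ 2 - M ^ 2 := by
      have := h1.1.1
      linarith
    have h5 : 4 * (|q.1| * |q.2.2|) ≤ q.2.1 ^ 2 + M ^ 2 := by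
      rw [← abs_mul]
      rcases abs_cases (q.1 * q.2.2) with ⟨h6, _⟩ | ⟨h6, _⟩ <;> rw [h6] <;>
        nlinarith [sq_nonneg q.2.1, sq_nonneg M]
    have h6 : q.2.1 ^ 2 ≤ L ^ 2 := by
      rw [← sq_abs q.2.1]
      exact pow_le_pow_left₀ (abs_nonneg _) hB 2
    have h7 : 1 ≤ |q.1| := Int.one_le_abs hA0
    have h8 : |q.2.2| ≤ |q.1| * |q.2.2| := le_mul_of_one_le_left (abs_nonneg _) h7
    have h9 := abs_nonneg q.2.2
    have h10 := sq_nonneg M
    rw [hR]
    linarith
  refine ⟨?_, ?_, ?_⟩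
  · exact abs_le.1 hA
  · exact abs_le.1 hB
  · exact abs_le.1 hC

/-! ### the sums at the cusps -/

/-- the terms -/
def e (w : ℤ → ℤ) (M x m C : ℤ) : ℤ := w C * (Int.sign (M * x + C * m) - Int.sign C)

theorem e_fin (w : ℤ → ℤ) (M x : ℤ) {m : ℤ} (hm : 0 < m) :
    (Function.support (e w M x m)).Finite := by
  refine (Set.finite_Icc (-|M * x|) (|M * x|)).subset ?_
  intro C hC
  rw [Set.mem_Icc]
  by_contra h
  apply hC
  have hx := abs_nonneg (M * x)
  have hx1 := le_abs_self (M * x)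
  have hx2 := neg_abs_le (M * x)
  show w C * (Int.sign (M * x + C * m) - Int.sign C) = 0
  rcases lt_or_ge C (-|M * x|) with h1 | h1
  · have h3 : C * m ≤ C := by nlinarith
    rw [Int.sign_eq_neg_one_of_neg (by linarith), Int.sign_eq_neg_one_of_neg (by linarith),
      sub_self, mul_zero]
  · have h2 : |M * x| < C := by
      by_contra h3
      exact h ⟨h1, not_lt.1 h3⟩
    have h3 : C ≤ C * m := by nlinarith
    rw [Int.sign_eq_one_of_pos (by linarith), Int.sign_eq_one_of_pos (by linarith),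
      sub_self, mul_zero]

/-- the sum of the differences with the origin -/
def E (w : ℤ → ℤ) (M x m : ℤ) : ℤ := ∑ᶠ C, e w M x m C

/-- the same for all signs of `m` -/
def E' (w : ℤ → ℤ) (M x m : ℤ) : ℤ := if 0 < m then E w M x m else E w M (-x) (-m)

theorem E_zero (w : ℤ → ℤ) (M : ℤ) : E w M 0 1 = 0 := by
  unfold E e
  have : ∀ C : ℤ, w C * (Int.sign (M * 0 + C * 1) - Int.sign C) = 0 := by
    intro C
    rw [mul_zero, zero_add, mul_one, sub_self, mul_zero]
  rw [finsum_congr this, finsum_zero]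

theorem E'_zero (w : ℤ → ℤ) (M : ℤ) : E' w M 0 1 = 0 := by
  unfold E'
  rw [if_pos one_pos, E_zero]

theorem E'_pos {w : ℤ → ℤ} {M x m : ℤ} (hm : 0 < m) : E' w M x m = E w M x m := by
  unfold E'
  rw [if_pos hm]

theorem E'_neg_neg {w : ℤ → ℤ} {M x m : ℤ} (hm : m ≠ 0) : E' w M (-x) (-m) = E' w M x m := by
  unfold E'
  rcases lt_or_gt_of_ne hm with h | h
  · rw [if_pos (by omega), if_neg (by omega)]
  · rw [if_neg (by omega), if_pos (by omega), neg_neg, neg_neg]

/-- the weight of the forms vanishing at infinity -/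
def wi (M : ℤ) (k : ℤ × ℤ × ℤ → ℤ) (C : ℤ) : ℤ := k (0, M, C)

/-- the weight of the forms vanishing at zero -/
def wo (M : ℤ) (k : ℤ × ℤ × ℤ → ℤ) (C : ℤ) : ℤ := k (17 * C, M, 0)

theorem inF_inf (H : Wt M k) {q : ℤ × ℤ × ℤ} :
    (inF M q ∧ q.1 = 0) ↔ ∃ C : ℤ, q = (0, M, C) := by
  obtain ⟨A, B, C⟩ := q
  constructor
  · rintro ⟨⟨h1, h2, h3⟩, h4⟩
    simp only at h1 h2 h3 h4
    subst h4
    have h5 : (B - M) * (B + M) = 0 := by linear_combination h1
    rcases mul_eq_zero.1 h5 with h6 | h6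
    · have : B = M := by omega
      subst this
      exact ⟨C, rfl⟩
    · exfalso
      apply H.cop
      have : B = -M := by omega
      rw [this] at h3
      omega
  · rintro ⟨C', h⟩
    simp only [Prod.mk.injEq] at h
    obtain ⟨rfl, rfl, rfl⟩ := h
    exact ⟨⟨by simp, dvd_zero _, by simp⟩, rfl⟩

theorem inF_zero (H : Wt M k) {q : ℤ × ℤ × ℤ} :
    (inF M q ∧ q.2.2 = 0) ↔ ∃ C : ℤ, q = (17 * C, M, 0) := by
  obtain ⟨A, B, C⟩ := q
  constructor
  · rintro ⟨⟨h1, ⟨A1, h2⟩, h3⟩, h4⟩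
    simp only at h1 h2 h3 h4
    subst h4
    have h5 : (B - M) * (B + M) = 0 := by linear_combination h1
    rcases mul_eq_zero.1 h5 with h6 | h6
    · have : B = M := by omega
      subst this
      exact ⟨A1, by rw [h2]⟩
    · exfalso
      apply H.cop
      have : B = -M := by omega
      rw [this] at h3
      omega
  · rintro ⟨C', h⟩
    simp only [Prod.mk.injEq] at h
    obtain ⟨rfl, rfl, rfl⟩ := h
    exact ⟨⟨by simp, ⟨C', rfl⟩, by simp⟩, rfl⟩

theorem Zi_family (H : Wt M k) {x m y n : ℤ} (hm : 0 < m) (hn : 0 < n) (C : ℤ) :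
    Zi M k x m y n (0, M, C) = e (wi M k) M x m C - e (wi M k) M y n C := by
  unfold Zi
  rw [if_pos ((inF_inf H).2 ⟨C, rfl⟩)]
  have h1 : ev (0, M, C) x m = m * (M * x + C * m) := by unfold ev; ring
  have h2 : ev (0, M, C) y n = n * (M * y + C * n) := by unfold ev; ring
  rw [h1, h2, sign_mul_pos hm, sign_mul_pos hn]
  unfold e wi
  ring

theorem Zi_range (H : Wt M k) {x m y n : ℤ} (q : ℤ × ℤ × ℤ) (h : Zi M k x m y n q ≠ 0) :
    q ∈ Set.range (fun C : ℤ => ((0 : ℤ), M, C)) := by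
  unfold Zi at h
  by_cases hq : inF M q ∧ q.1 = 0
  · obtain ⟨C, rfl⟩ := (inF_inf H).1 hq
    exact ⟨C, rfl⟩
  · rw [if_neg hq] at h
    exact absurd rfl h

theorem Zi_inj : Function.Injective (fun C : ℤ => ((0 : ℤ), M, C)) := by
  intro C C' h
  simp only [Prod.mk.injEq, true_and] at h
  exact h

theorem Zi_sum (H : Wt M k) {x m y n : ℤ} (hm : 0 < m) (hn : 0 < n) :
    ∑ᶠ q, Zi M k x m y n q = E (wi M k) M x m - E (wi M k) M y n := by
  rw [finsum_family Zi_inj (Zi_range H)]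
  unfold E
  rw [← finsum_sub_distrib (e_fin _ _ _ hm) (e_fin _ _ _ hn)]
  exact finsum_congr fun C => Zi_family H hm hn C

theorem Zi_fin (H : Wt M k) {x m y n : ℤ} (hm : 0 < m) (hn : 0 < n) :
    (Function.support (Zi M k x m y n)).Finite := by
  refine finite_family (Zi_range H) ?_
  have h : (fun C : ℤ => Zi M k x m y n (0, M, C)) =
      fun C => e (wi M k) M x m C - e (wi M k) M y n C :=
    funext fun C => Zi_family H hm hn C
  rw [h]
  exact ((e_fin _ _ _ hm).union (e_fin _ _ _ hn)).subset (Function.support_sub _ _)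

theorem Zo_family (H : Wt M k) {c d c' d' : ℤ} (hd : 0 < d) (hd' : 0 < d') (C : ℤ) :
    Zo M k d (-(17 * c)) d' (-(17 * c')) (17 * C, M, 0) =
      e (wo M k) M (-c) d C - e (wo M k) M (-c') d' C := by
  unfold Zo
  rw [if_pos ((inF_zero H).2 ⟨C, rfl⟩)]
  have h1 : ev (17 * C, M, 0) d (-(17 * c)) = (17 * d) * (M * (-c) + C * d) := by unfold ev; ring
  have h2 : ev (17 * C, M, 0) d' (-(17 * c')) = (17 * d') * (M * (-c') + C * d') := by
    unfold ev; ring
  rw [h1, h2, sign_mul_pos (by omega), sign_mul_pos (by omega)]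
  unfold e wo
  ring

theorem Zo_range (H : Wt M k) {x m y n : ℤ} (q : ℤ × ℤ × ℤ) (h : Zo M k x m y n q ≠ 0) :
    q ∈ Set.range (fun C : ℤ => ((17 * C : ℤ), M, (0 : ℤ))) := by
  unfold Zo at h
  by_cases hq : inF M q ∧ q.2.2 = 0
  · obtain ⟨C, rfl⟩ := (inF_zero H).1 hq
    exact ⟨C, rfl⟩
  · rw [if_neg hq] at h
    exact absurd rfl h

theorem Zo_inj : Function.Injective (fun C : ℤ => ((17 * C : ℤ), M, (0 : ℤ))) := by
  intro C C' h
  simp only [Prod.mk.injEq] at h
  omega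

theorem Zo_sum (H : Wt M k) {c d c' d' : ℤ} (hd : 0 < d) (hd' : 0 < d') :
    ∑ᶠ q, Zo M k d (-(17 * c)) d' (-(17 * c')) q =
      E (wo M k) M (-c) d - E (wo M k) M (-c') d' := by
  rw [finsum_family Zo_inj (Zo_range H)]
  unfold E
  rw [← finsum_sub_distrib (e_fin _ _ _ hd) (e_fin _ _ _ hd')]
  exact finsum_congr fun C => Zo_family H hd hd' C

theorem Zo_fin (H : Wt M k) {c d c' d' : ℤ} (hd : 0 < d) (hd' : 0 < d') :
    (Function.support (Zo M k d (-(17 * c)) d' (-(17 * c')))).Finite := by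
  refine finite_family (Zo_range H) ?_
  have h : (fun C : ℤ => Zo M k d (-(17 * c)) d' (-(17 * c')) (17 * C, M, 0)) =
      fun C => e (wo M k) M (-c) d C - e (wo M k) M (-c') d' C :=
    funext fun C => Zo_family H hd hd' C
  rw [h]
  exact ((e_fin _ _ _ hd).union (e_fin _ _ _ hd')).subset (Function.support_sub _ _)

theorem Zi_neg1 (x m y n : ℤ) : Zi M k (-x) (-m) y n = Zi M k x m y n := by
  funext q
  unfold Zi
  rw [ev_neg_neg]

theorem Zi_neg2 (x m y n : ℤ) : Zi M k x m (-y) (-n) = Zi M k x m y n := by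
  funext q
  unfold Zi
  rw [ev_neg_neg]

theorem Zo_neg1 (x m y n : ℤ) : Zo M k (-x) (-m) y n = Zo M k x m y n := by
  funext q
  unfold Zo
  rw [ev_neg_neg]

theorem Zo_neg2 (x m y n : ℤ) : Zo M k x m (-y) (-n) = Zo M k x m y n := by
  funext q
  unfold Zo
  rw [ev_neg_neg]

theorem Zi_all (H : Wt M k) {x m y n : ℤ} (hm : m ≠ 0) (hn : n ≠ 0) :
    (Function.support (Zi M k x m y n)).Finite ∧
      ∑ᶠ q, Zi M k x m y n q = E' (wi M k) M x m - E' (wi M k) M y n := by
  wlog hm0 : 0 < m generalizing x m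
  · have h := this (x := -x) (m := -m) (neg_ne_zero.2 hm) (by omega)
    rw [Zi_neg1, E'_neg_neg hm] at h
    exact h
  wlog hn0 : 0 < n generalizing y n
  · have h := this (y := -y) (n := -n) (neg_ne_zero.2 hn) (by omega)
    rw [Zi_neg2, E'_neg_neg hn] at h
    exact h
  rw [E'_pos hm0, E'_pos hn0]
  exact ⟨Zi_fin H hm0 hn0, Zi_sum H hm0 hn0⟩

theorem Zo_all (H : Wt M k) {c d c' d' : ℤ} (hd : d ≠ 0) (hd' : d' ≠ 0) :
    (Function.support (Zo M k d (-(17 * c)) d' (-(17 * c')))).Finite ∧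
      ∑ᶠ q, Zo M k d (-(17 * c)) d' (-(17 * c')) q =
        E' (wo M k) M (-c) d - E' (wo M k) M (-c') d' := by
  have e1 : ∀ c : ℤ, -(17 * (-c)) = -(-(17 * c)) := fun c => by ring
  wlog hd0 : 0 < d generalizing c d
  · have h := this (c := -c) (d := -d) (neg_ne_zero.2 hd) (by omega)
    rw [e1, Zo_neg1, E'_neg_neg (x := -c) hd] at h
    exact h
  wlog hd0' : 0 < d' generalizing c' d'
  · have h := this (c' := -c') (d' := -d') (neg_ne_zero.2 hd') (by omega)
    rw [e1, Zo_neg2, E'_neg_neg (x := -c') hd'] at h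
    exact h
  rw [E'_pos hd0, E'_pos hd0']
  exact ⟨Zo_fin H hd0 hd0', Zo_sum H hd0 hd0'⟩

/-! ### the homomorphism -/

/-- the sum of the differences of the signs between infinity and `x / m` -/
def X (M : ℤ) (k : ℤ × ℤ × ℤ → ℤ) (x m : ℤ) : ℤ := ∑ᶠ q, U M k 1 0 x m q

/-- the value at the matrix `(a, b; 17 c, d)` -/
def HH (M : ℤ) (k : ℤ × ℤ × ℤ → ℤ) (b c d : ℤ) : ℤ :=
  X M k b d - X M k 0 1 - E' (wi M k) M b d + E' (wo M k) M (-c) d

theorem seven {f f1 f2 f7 f3 f4 f5 f6 : ℤ × ℤ × ℤ → ℤ}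
    (hid : ∀ q, f q = f1 q + f7 q + f2 q + f3 q - f4 q + f5 q - f6 q)
    (h1 : (Function.support f1).Finite) (h7 : (Function.support f7).Finite)
    (h2 : (Function.support f2).Finite)
    (h3 : (Function.support f3).Finite) (h4 : (Function.support f4).Finite)
    (h5 : (Function.support f5).Finite) (h6 : (Function.support f6).Finite) :
    ∑ᶠ q, f q = ∑ᶠ q, f1 q + ∑ᶠ q, f7 q + ∑ᶠ q, f2 q + ∑ᶠ q, f3 q - ∑ᶠ q, f4 q + ∑ᶠ q, f5 q -
      ∑ᶠ q, f6 q := by
  have g0 : (Function.support fun q => f1 q + f7 q).Finite :=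
    (h1.union h7).subset (Function.support_add f1 f7)
  have g1 : (Function.support fun q => f1 q + f7 q + f2 q).Finite :=
    (g0.union h2).subset (Function.support_add (fun q => f1 q + f7 q) f2)
  have g2 : (Function.support fun q => f1 q + f7 q + f2 q + f3 q).Finite :=
    (g1.union h3).subset (Function.support_add (fun q => f1 q + f7 q + f2 q) f3)
  have g3 : (Function.support fun q => f1 q + f7 q + f2 q + f3 q - f4 q).Finite :=
    (g2.union h4).subset (Function.support_sub (fun q => f1 q + f7 q + f2 q + f3 q) f4)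
  have g4 : (Function.support fun q => f1 q + f7 q + f2 q + f3 q - f4 q + f5 q).Finite :=
    (g3.union h5).subset (Function.support_add (fun q => f1 q + f7 q + f2 q + f3 q - f4 q) f5)
  rw [finsum_congr hid, finsum_sub_distrib g4 h6, finsum_add_distrib g3 h5,
    finsum_sub_distrib g2 h4, finsum_add_distrib g1 h3, finsum_add_distrib g0 h2,
    finsum_add_distrib h1 h7]

/-- the termwise identity -/
theorem U_id (H : Wt M k) {a b c d a' b' c' d' : ℤ} (h : a * d - b * (17 * c) = 1)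
    (h' : a' * d' - b' * (17 * c') = 1)
    (h'' : (a * a' + b * (17 * c')) * (17 * c * b' + d * d') -
      (a * b' + b * d') * (17 * (c * a' + d * c')) = 1) (q : ℤ × ℤ × ℤ) :
    U M k 1 0 (a * b' + b * d') (17 * c * b' + d * d') q =
      U M k 1 0 b d q + U M k 0 1 1 0 (eqv a b (17 * c) d h q) +
      U M k 1 0 b' d' (eqv a b (17 * c) d h q) +
      Zi M k (a * b' + b * d') (17 * c * b' + d * d') b d q -
      Zo M k (17 * c * b' + d * d') (-(17 * (c * a' + d * c'))) d' (-(17 * c'))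
        (eqv (a * a' + b * (17 * c')) (a * b' + b * d') (17 * (c * a' + d * c'))
          (17 * c * b' + d * d') h'' q) +
      Zo M k d (-(17 * c)) 1 0 (eqv a b (17 * c) d h q) -
      Zi M k b' d' 0 1 (eqv a b (17 * c) d h q) := by
  have hc : (17 : ℤ) ∣ 17 * c := ⟨c, rfl⟩
  have hc2 : (17 : ℤ) ∣ 17 * (c * a' + d * c') := ⟨_, rfl⟩
  show U M k 1 0 (a * b' + b * d') (17 * c * b' + d * d') q =
      U M k 1 0 b d q + U M k 0 1 1 0 (act a b (17 * c) d q) +
      U M k 1 0 b' d' (act a b (17 * c) d q) +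
      Zi M k (a * b' + b * d') (17 * c * b' + d * d') b d q -
      Zo M k (17 * c * b' + d * d') (-(17 * (c * a' + d * c'))) d' (-(17 * c'))
        (act (a * a' + b * (17 * c')) (a * b' + b * d') (17 * (c * a' + d * c'))
          (17 * c * b' + d * d') q) +
      Zo M k d (-(17 * c)) 1 0 (act a b (17 * c) d q) -
      Zi M k b' d' 0 1 (act a b (17 * c) d q)
  by_cases hq : inF M q
  · -- the values
    have q1 := inF_act h hc hq
    have q2 := inF_act h'' hc2 hq
    have k1 := H.inv h hc hq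
    have k2 := H.inv h'' hc2 hq
    have e1 : ev (act a b (17 * c) d q) b' d' = ev q (a * b' + b * d') (17 * c * b' + d * d') := by
      rw [ev_act]
    have e2 : ev (act a b (17 * c) d q) 1 0 = ev q a (17 * c) := by
      rw [ev_act, mul_one, mul_one, mul_zero, mul_zero, add_zero, add_zero]
    have e3 : ev (act a b (17 * c) d q) 0 1 = ev q b d := by
      rw [ev_act, mul_one, mul_one, mul_zero, mul_zero, zero_add, zero_add]
    have e4 : ev (act a b (17 * c) d q) d (-(17 * c)) = ev q 1 0 := by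
      rw [ev_act]
      congr 1
      · linear_combination h
      · ring
    have e5 : ev (act (a * a' + b * (17 * c')) (a * b' + b * d') (17 * (c * a' + d * c'))
        (17 * c * b' + d * d') q) (17 * c * b' + d * d') (-(17 * (c * a' + d * c'))) =
        ev q 1 0 := by
      rw [ev_act]
      congr 1
      · linear_combination h''
      · ring
    have e6 : ev (act (a * a' + b * (17 * c')) (a * b' + b * d') (17 * (c * a' + d * c'))
        (17 * c * b' + d * d') q) d' (-(17 * c')) = ev q a (17 * c) := by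
      rw [ev_act]
      congr 1
      · linear_combination a * h'
      · linear_combination (17 * c) * h'
    have c1 : (act a b (17 * c) d q).1 = ev q a (17 * c) := by
      rw [← e2, ev10]
    have c2 : (act a b (17 * c) d q).2.2 = ev q b d := by
      rw [← e3, ev01]
    have c3 : (act (a * a' + b * (17 * c')) (a * b' + b * d') (17 * (c * a' + d * c'))
        (17 * c * b' + d * d') q).2.2 = ev q (a * b' + b * d') (17 * c * b' + d * d') := by
      rw [← ev01, ev_act, mul_one, mul_one, mul_zero, mul_zero, zero_add, zero_add]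
    have c4 : q.1 = ev q 1 0 := (ev10 q).symm
    unfold U Zi Zo
    simp only [hq, q1, q2, true_and, k1, k2, e1, e2, e3, e4, e5, e6, c1, c2, c3]
    rw [c4]
    have hid := sgn_id (Int.sign (ev q 1 0))
      (Int.sign (ev q (a * b' + b * d') (17 * c * b' + d * d'))) (Int.sign (ev q b d))
      (Int.sign (ev q a (17 * c))) (sign_cases _) (sign_cases _) (sign_cases _) (sign_cases _)
      (k q)
    simp only [ne_eq, Int.sign_eq_zero_iff_zero] at hid ⊢
    linarith
  · have q1 : ¬ inF M (act a b (17 * c) d q) := fun h2 => hq ((inF_act_iff h hc).1 h2)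
    have q2 : ¬ inF M (act (a * a' + b * (17 * c')) (a * b' + b * d') (17 * (c * a' + d * c'))
        (17 * c * b' + d * d') q) := fun h2 => hq ((inF_act_iff h'' hc2).1 h2)
    unfold U Zi Zo
    simp only [hq, q1, q2, false_and, if_false]
    ring

theorem X_comm0 : ∑ᶠ q, U M k 0 1 1 0 q = -X M k 0 1 := by
  unfold X
  rw [← finsum_neg_distrib]
  exact finsum_congr fun q => U_comm _ _ _ _ q

/-- **the homomorphism property** -/
theorem HH_hom (H : Wt M k) {a b c d a' b' c' d' : ℤ} (h : a * d - 17 * (b * c) = 1)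
    (h' : a' * d' - 17 * (b' * c') = 1) :
    HH M k (a * b' + b * d') (c * a' + d * c') (17 * c * b' + d * d') =
      HH M k b c d + HH M k b' c' d' := by
  have g : a * d - b * (17 * c) = 1 := by linear_combination h
  have g' : a' * d' - b' * (17 * c') = 1 := by linear_combination h'
  have g'' : (a * a' + b * (17 * c')) * (17 * c * b' + d * d') -
      (a * b' + b * d') * (17 * (c * a' + d * c')) = 1 := by
    linear_combination g' + (a' * d' - b' * (17 * c')) * g
  have hd := d_ne h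
  have hd' := d_ne h'
  have hD : 17 * c * b' + d * d' ≠ 0 :=
    d_ne (a := a * a' + b * (17 * c')) (b := a * b' + b * d') (c := c * a' + d * c')
      (by linear_combination g'')
  have fU1 := U_fin (M := M) (k := k) (x := b) hd
  have fU2 := fin_eqv (U_fin (M := M) (k := k) (x := b') hd') (eqv a b (17 * c) d g)
  have fU7' : (Function.support (U M k 0 1 1 0)).Finite := by
    have h1 := U_fin (M := M) (k := k) (x := 0) (m := 1) one_ne_zero
    refine h1.subset ?_
    intro q hq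
    have h2 : U M k 0 1 1 0 q ≠ 0 := hq
    rw [U_comm] at h2
    exact neg_ne_zero.1 h2
  have fU7 := fin_eqv fU7' (eqv a b (17 * c) d g)
  obtain ⟨fZ1, s1⟩ := Zi_all H (x := a * b' + b * d') (y := b) hD hd
  obtain ⟨fZ2', s2⟩ := Zo_all H (c := c * a' + d * c') (c' := c') hD hd'
  have fZ2 := fin_eqv fZ2'
    (eqv (a * a' + b * (17 * c')) (a * b' + b * d') (17 * (c * a' + d * c'))
      (17 * c * b' + d * d') g'')
  obtain ⟨fZ3', s3⟩ := Zo_all H (c := c) (c' := 0) hd one_ne_zero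
  rw [mul_zero, neg_zero] at fZ3' s3
  have fZ3 := fin_eqv fZ3' (eqv a b (17 * c) d g)
  obtain ⟨fZ4', s4⟩ := Zi_all H (x := b') (y := 0) hd' one_ne_zero
  have fZ4 := fin_eqv fZ4' (eqv a b (17 * c) d g)
  have hU := seven (U_id H g g' g'') fU1 fU7 fU2 fZ1 fZ2 fZ3 fZ4
  rw [sum_eqv, sum_eqv, sum_eqv, sum_eqv, sum_eqv, X_comm0, s1, s2, s3, s4, E'_zero] at hU
  have e0 : E' (wi M k) M 0 1 = 0 := E'_zero _ _
  rw [e0] at hU
  unfold HH
  unfold X at hU ⊢
  linarith

end

end Pool.Agent.N975.PG
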