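import Pool.Agent.N975.PG.Hom

/-!
# Parity and the values at the parabolic elements
-/

set_option autoImplicit false

namespace Pool.Agent.N975.PG

open Pool.Agent.N975.Sym (ev act act_inv eqv ev_act ev10 ev_neg)
open Pool.Agent.N975.S17 (ev01 sgn_id sign_cases sign_mul_pos finsum_family finite_family fin_eqv
  sum_eqv ev_neg_neg d_ne)

noncomputable section

variable {M : ℤ} {k : ℤ × ℤ × ℤ → ℤ}

/-- the reflection -/
def refl : (ℤ × ℤ × ℤ) ≃ (ℤ × ℤ × ℤ) where
  toFun q := (-q.1, q.2.1, -q.2.2)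
  invFun q := (-q.1, q.2.1, -q.2.2)
  left_inv q := by simp
  right_inv q := by simp

/-- the parity of a weight -/
def Parity (M : ℤ) (k : ℤ × ℤ × ℤ → ℤ) (ε : ℤ) : Prop :=
  ∀ q, inF M q → k (refl q) = ε * k q

theorem inF_refl {q : ℤ × ℤ × ℤ} : inF M (refl q) ↔ inF M q := by
  obtain ⟨A, B, C⟩ := q
  have hr : refl (A, B, C) = (-A, B, -C) := rfl
  rw [hr]
  unfold inF
  simp only
  constructor
  · rintro ⟨h1, h2, h3⟩
    exact ⟨by linear_combination h1, (dvd_neg).1 h2, h3⟩
  · rintro ⟨h1, h2, h3⟩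
    exact ⟨by linear_combination h1, (dvd_neg).2 h2, h3⟩

theorem ev_refl (q : ℤ × ℤ × ℤ) (x m : ℤ) : ev (refl q) x m = -ev q (-x) m := by
  obtain ⟨A, B, C⟩ := q
  have hr : refl (A, B, C) = (-A, B, -C) := rfl
  rw [hr]
  unfold ev
  ring

theorem X_neg {ε : ℤ} (hε : ε = 1 ∨ ε = -1) (hk : Parity M k ε) (x m : ℤ) :
    X M k (-x) m = -ε * X M k x m := by
  have hε2 : ε * ε = 1 := by rcases hε with rfl | rfl <;> norm_num
  unfold X
  have h1 : ∀ q, U M k 1 0 (-x) m q = -ε * U M k 1 0 x m (refl q) := by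
    intro q
    unfold U
    have e1 : ev (refl q) x m = -ev q (-x) m := ev_refl q x m
    have e2 : ev (refl q) 1 0 = -ev q 1 0 := by
      rw [ev_refl, ← ev_neg_neg q (-1) 0, neg_neg, neg_zero]
    rw [e1, e2]
    by_cases hq : inF M q
    · simp only [hq, inF_refl.2 hq, true_and, hk q hq, ne_eq, neg_eq_zero, Int.sign_neg]
      split_ifs with h
      · linear_combination (-(k q * (Int.sign (ev q 1 0) - Int.sign (ev q (-x) m)))) * hε2
      · ring
    · have hq' : ¬ inF M (refl q) := fun h => hq (inF_refl.1 h)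
      simp only [hq, hq', false_and, if_false, mul_zero]
  rw [finsum_congr h1]
  have h2 : ∑ᶠ q, -ε * U M k 1 0 x m (refl q) = ∑ᶠ q, -ε * U M k 1 0 x m q :=
    finsum_comp_equiv refl (f := fun q => -ε * U M k 1 0 x m q)
  rw [h2]
  rcases hε with rfl | rfl
  · have h3 : ∀ q, -1 * U M k 1 0 x m q = -U M k 1 0 x m q := fun q => by ring
    rw [finsum_congr h3, finsum_neg_distrib]
    ring
  · have h3 : ∀ q, -(-1) * U M k 1 0 x m q = U M k 1 0 x m q := fun q => by ring
    rw [finsum_congr h3]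
    ring

theorem E_neg {w : ℤ → ℤ} {ε : ℤ} (hε : ε = 1 ∨ ε = -1) (hw : ∀ C, w (-C) = ε * w C) (x m : ℤ) :
    E w M (-x) m = -ε * E w M x m := by
  have hε2 : ε * ε = 1 := by rcases hε with rfl | rfl <;> norm_num
  unfold E
  have h1 : ∀ C, e w M (-x) m C = -ε * e w M x m (-C) := by
    intro C
    unfold e
    have e1 : M * x + -C * m = -(M * -x + C * m) := by ring
    rw [hw, e1, Int.sign_neg, Int.sign_neg]
    linear_combination (-(w C * (Int.sign (M * -x + C * m) - Int.sign C))) * hε2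
  rw [finsum_congr h1]
  have h2 : ∑ᶠ C, -ε * e w M x m (-C) = ∑ᶠ C, -ε * e w M x m C :=
    finsum_comp_equiv (Equiv.neg ℤ) (f := fun C => -ε * e w M x m C)
  rw [h2]
  rcases hε with rfl | rfl
  · have h3 : ∀ q, -1 * e w M x m q = -e w M x m q := fun q => by ring
    rw [finsum_congr h3, finsum_neg_distrib]
    ring
  · have h3 : ∀ q, -(-1) * e w M x m q = e w M x m q := fun q => by ring
    rw [finsum_congr h3]
    ring

theorem E'_neg {w : ℤ → ℤ} {ε : ℤ} (hε : ε = 1 ∨ ε = -1) (hw : ∀ C, w (-C) = ε * w C) (x m : ℤ) :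
    E' w M (-x) m = -ε * E' w M x m := by
  unfold E'
  split_ifs
  · exact E_neg hε hw x m
  · exact E_neg hε hw (-x) (-m)

theorem wi_neg (H : Wt M k) {ε : ℤ} (hk : Parity M k ε) (C : ℤ) : wi M k (-C) = ε * wi M k C := by
  have h1 := hk (0, M, C) ((inF_inf H).2 ⟨C, rfl⟩).1
  have hr : refl (0, M, C) = (0, M, -C) := by
    show (-0, M, -C) = _
    rw [neg_zero]
  rw [hr] at h1
  exact h1

theorem wo_neg (H : Wt M k) {ε : ℤ} (hk : Parity M k ε) (C : ℤ) : wo M k (-C) = ε * wo M k C := by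
  have h1 := hk (17 * C, M, 0) ((inF_zero H).2 ⟨C, rfl⟩).1
  have hr : refl (17 * C, M, 0) = (17 * (-C), M, 0) := by
    show (-(17 * C), M, -0) = _
    rw [neg_zero, mul_neg]
  rw [hr] at h1
  exact h1

/-- the value at the negative of the argument, odd case -/
theorem HH_odd (H : Wt M k) (hk : Parity M k 1) (b c d : ℤ) :
    HH M k (-b) (-c) d = -HH M k b c d := by
  have h0 := X_neg (Or.inl rfl) hk 0 1
  rw [neg_zero] at h0
  have h1 := X_neg (Or.inl rfl) hk b d
  have h2 := E'_neg (M := M) (Or.inl rfl) (wi_neg H hk) b d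
  have h3 := E'_neg (M := M) (Or.inl rfl) (wo_neg H hk) c d
  unfold HH
  rw [h1, h2, h3, neg_neg]
  linarith

/-- the value at the negative of the argument, even case -/
theorem HH_even (H : Wt M k) (hk : Parity M k (-1)) (b c d : ℤ) :
    HH M k (-b) (-c) d = HH M k b c d := by
  have h1 := X_neg (Or.inr rfl) hk b d
  have h2 := E'_neg (M := M) (Or.inr rfl) (wi_neg H hk) b d
  have h3 := E'_neg (M := M) (Or.inr rfl) (wo_neg H hk) c d
  unfold HH
  rw [h1, h2, h3, neg_neg]
  ring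

theorem X_neg_neg (x m : ℤ) : X M k (-x) (-m) = X M k x m := by
  unfold X
  apply finsum_congr
  intro q
  unfold U
  rw [ev_neg_neg]

theorem HH_neg {b c d : ℤ} (hd : d ≠ 0) : HH M k (-b) (-c) (-d) = HH M k b c d := by
  unfold HH
  rw [X_neg_neg, E'_neg_neg hd, E'_neg_neg (x := -c) hd]

/-! ### periodicity -/

theorem X_add (H : Wt M k) (x m : ℤ) : X M k (x + m) m = X M k x m := by
  unfold X
  have hdet : (1 : ℤ) * 1 - 1 * 0 = 1 := by norm_num
  have h1 : ∀ q, U M k 1 0 (x + m) m q = U M k 1 0 x m (eqv 1 1 0 1 hdet q) := by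
    intro q
    have h2 := U_act H hdet (dvd_zero _) 1 0 x m q
    simp only [mul_one, mul_zero, add_zero, one_mul, zero_mul, zero_add] at h2
    exact h2
  rw [finsum_congr h1, sum_eqv]

theorem wi_per (H : Wt M k) (C : ℤ) : wi M k (C + M) = wi M k C := by
  have h1 := H.inv (a := 1) (b := 1) (c := 0) (d := 1) (by norm_num) (dvd_zero _)
    ((inF_inf H).2 ⟨C, rfl⟩).1
  have e1 : act 1 1 0 1 (0, M, C) = (0, M, C + M) := by
    unfold act
    simp only [Prod.mk.injEq]
    refine ⟨by ring, by ring, by ring⟩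
  rw [e1] at h1
  exact h1

theorem wo_per (H : Wt M k) (C : ℤ) : wo M k (C + M) = wo M k C := by
  have h1 := H.inv (a := 1) (b := 0) (c := 17) (d := 1) (by norm_num) (dvd_refl _)
    ((inF_zero H).2 ⟨C, rfl⟩).1
  have e1 : act 1 0 17 1 (17 * C, M, 0) = (17 * (C + M), M, 0) := by
    unfold act
    simp only [Prod.mk.injEq]
    refine ⟨by ring, by ring, by ring⟩
  rw [e1] at h1
  exact h1

theorem E_add {w : ℤ → ℤ} (hw : ∀ C, w (C + M) = w C) (x : ℤ) {m : ℤ} (hm : 0 < m) :
    E w M (x + m) m = E w M x m + E w M 1 1 := by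
  unfold E
  have h1 : ∀ C, e w M (x + m) m C = e w M x m (C + M) + e w M 1 1 C := by
    intro C
    unfold e
    rw [hw]
    have e1 : M * (x + m) + C * m = M * x + (C + M) * m := by ring
    have e2 : M * 1 + C * 1 = C + M := by ring
    rw [e1, e2]
    ring
  have hf : (Function.support fun C => e w M x m (C + M)).Finite := by
    have := (e_fin w M x hm).preimage ((Equiv.addRight M).injective.injOn)
    exact this
  rw [finsum_congr h1, finsum_add_distrib hf (e_fin w M 1 one_pos)]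
  congr 1
  exact finsum_comp_equiv (Equiv.addRight M) (f := e w M x m)

theorem E_one {w : ℤ → ℤ} (hM : 0 < M) (hw : ∀ C, w (C + M) = w C) :
    E w M 1 1 = 2 * ∑ C ∈ Finset.Ico (-M) 0, w C := by
  have hs : Function.support (e w M 1 1) ⊆ ((Finset.Icc (-M) 0 : Finset ℤ) : Set ℤ) := by
    intro C hC
    have h1 : e w M 1 1 C ≠ 0 := hC
    by_contra h
    apply h1
    unfold e
    rw [Finset.coe_Icc, Set.mem_Icc, not_and_or, not_le, not_le] at h
    rcases h with h | h
    · rw [Int.sign_eq_neg_one_of_neg (by linarith), Int.sign_eq_neg_one_of_neg (by linarith),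
        sub_self, mul_zero]
    · rw [Int.sign_eq_one_of_pos (by linarith), Int.sign_eq_one_of_pos h, sub_self, mul_zero]
  unfold E
  rw [finsum_eq_sum_of_support_subset _ hs]
  have hlt : -M < 0 := by omega
  have e1 : Finset.Icc (-M) 0 = insert 0 (insert (-M) (Finset.Ioo (-M) 0)) := by
    ext C
    simp only [Finset.mem_Icc, Finset.mem_insert, Finset.mem_Ioo]
    omega
  have e2 : Finset.Ico (-M) 0 = insert (-M) (Finset.Ioo (-M) 0) := by
    ext C
    simp only [Finset.mem_Ico, Finset.mem_insert, Finset.mem_Ioo]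
    omega
  have n1 : (0 : ℤ) ∉ insert (-M) (Finset.Ioo (-M) 0) := by
    simp only [Finset.mem_insert, Finset.mem_Ioo]
    omega
  have n2 : (-M) ∉ Finset.Ioo (-M) 0 := by
    simp only [Finset.mem_Ioo]
    omega
  rw [e1, e2, Finset.sum_insert n1, Finset.sum_insert n2, Finset.sum_insert n2]
  have h0 : w 0 = w (-M) := by
    rw [← hw (-M), neg_add_cancel]
  have v0 : e w M 1 1 0 = w (-M) := by
    unfold e
    rw [Int.sign_eq_one_of_pos (by linarith), Int.sign_zero, h0]
    ring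
  have v1 : e w M 1 1 (-M) = w (-M) := by
    unfold e
    have : M * 1 + -M * 1 = 0 := by ring
    rw [this, Int.sign_zero, Int.sign_eq_neg_one_of_neg hlt]
    ring
  have v2 : ∀ C ∈ Finset.Ioo (-M) 0, e w M 1 1 C = 2 * w C := by
    intro C hC
    rw [Finset.mem_Ioo] at hC
    unfold e
    rw [Int.sign_eq_one_of_pos (by linarith), Int.sign_eq_neg_one_of_neg hC.2]
    ring
  rw [v0, v1, Finset.sum_congr rfl v2, ← Finset.mul_sum]
  ring

/-- the mean value zero -/
def Mean (M : ℤ) (w : ℤ → ℤ) : Prop := ∑ C ∈ Finset.Ico (-M) 0, w C = 0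

theorem E_add' {w : ℤ → ℤ} (hM : 0 < M) (hw : ∀ C, w (C + M) = w C) (h0 : Mean M w) (x : ℤ)
    {m : ℤ} (hm : 0 < m) : E w M (x + m) m = E w M x m := by
  rw [E_add hw x hm, E_one hM hw, h0, mul_zero, add_zero]

theorem E_add_mul {w : ℤ → ℤ} (hM : 0 < M) (hw : ∀ C, w (C + M) = w C) (h0 : Mean M w) (x : ℤ)
    {m : ℤ} (hm : 0 < m) (j : ℤ) : E w M (x + m * j) m = E w M x m := by
  induction j using Int.induction_on with
  | zero => rw [mul_zero, add_zero]
  | succ n ih =>
    have h : x + m * ((n : ℤ) + 1) = (x + m * n) + m := by ring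
    rw [h, E_add' hM hw h0 _ hm, ih]
  | pred n ih =>
    have h : x + m * (-(n : ℤ)) = (x + m * (-(n : ℤ) - 1)) + m := by ring
    rw [h, E_add' hM hw h0 _ hm] at ih
    exact ih

/-- only the residue of the numerator matters -/
theorem E_mod {w : ℤ → ℤ} (hM : 0 < M) (hw : ∀ C, w (C + M) = w C) (h0 : Mean M w) (x : ℤ)
    {m : ℤ} (hm : 0 < m) : E w M x m = E w M (x % m) m := by
  have h1 := E_add_mul hM hw h0 (x % m) hm (x / m)
  rw [Int.emod_add_mul_ediv] at h1
  exact h1

theorem HH_T (H : Wt M k) (h0 : Mean M (wi M k)) : HH M k 1 0 1 = 0 := by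
  have h1 := X_add H 0 1
  rw [zero_add] at h1
  have h2 := E_add' H.pos (wi_per H) h0 0 one_pos
  rw [zero_add, E_zero] at h2
  unfold HH
  rw [h1, E'_pos one_pos, h2, neg_zero, E'_zero]
  ring

theorem HH_V (H : Wt M k) (h0 : Mean M (wo M k)) : HH M k 0 1 1 = 0 := by
  have h2 := E_add' H.pos (wo_per H) h0 (-1) one_pos
  rw [neg_add_cancel, E_zero] at h2
  unfold HH
  rw [E'_zero, E'_pos one_pos, ← h2]
  ring

end

end Pool.Agent.N975.PG
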